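import Mathlib
import Pool.Agent.H199R2.Blocks

set_option autoImplicit false

/-!
The clique achievement number of the `(m:b)` Maker-Breaker game on `K_N`, `m > b`: the conjectured
formula `⌊Q(N) + o(1)⌋` is false.
-/

namespace Pool.Agent.Results.MP_ba8873_co.Disproof

open Finset

/-- The board: all edges of the complete graph on `N` vertices. -/
def board (N : ℕ) : Finset (Sym2 (Fin N)) := univ.filter (fun z => ¬ z.IsDiag)

/-- A position: the set of edges claimed so far by Maker and the set claimed by Breaker. -/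
structure Pos (N : ℕ) where
  maker : Finset (Sym2 (Fin N))
  breaker : Finset (Sym2 (Fin N))

/-- The edges that nobody has claimed yet. -/
def free {N : ℕ} (p : Pos N) : Finset (Sym2 (Fin N)) := board N \ (p.maker ∪ p.breaker)

/-- The play in which Maker follows the strategy `σ` and Breaker claims the set `R i` in his
`i`-th turn: `play σ R i` is the position after `i` rounds. In each round Maker moves first. -/
def play {N : ℕ} (σ : Pos N → Finset (Sym2 (Fin N))) (R : ℕ → Finset (Sym2 (Fin N))) : ℕ → Pos N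
  | 0 => ⟨∅, ∅⟩
  | i + 1 => ⟨(play σ R i).maker ∪ σ (play σ R i), (play σ R i).breaker ∪ R i⟩

/-- Maker's strategy is legal in the `(m:b)` game: in every position it claims exactly `m` free
edges, or all free edges if there are fewer than `m`. -/
def LegalStrategy {N : ℕ} (m : ℕ) (σ : Pos N → Finset (Sym2 (Fin N))) : Prop :=
  ∀ p, σ p ⊆ free p ∧ (σ p).card = min m (free p).card

/-- Breaker's turns are legal in the `(m:b)` game: each time he claims exactly `b` of the edges
that are still free after Maker's move, or all of them if there are fewer than `b`. -/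
def LegalReplies {N : ℕ} (b : ℕ) (σ : Pos N → Finset (Sym2 (Fin N)))
    (R : ℕ → Finset (Sym2 (Fin N))) : Prop :=
  ∀ i, R i ⊆ free (play σ R i) \ σ (play σ R i) ∧
    (R i).card = min b (free (play σ R i) \ σ (play σ R i)).card

/-- The edge set `M` contains all edges of a copy of `K_q`. -/
def ContainsClique {N : ℕ} (q : ℕ) (M : Finset (Sym2 (Fin N))) : Prop :=
  ∃ S : Finset (Fin N), S.card = q ∧ ∀ u ∈ S, ∀ v ∈ S, u ≠ v → s(u, v) ∈ M

/-- Maker has a legal strategy in the `(m:b)` game on `K_N` that builds `K_q` against every legal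
play of Breaker: when all edges are claimed, Maker's edges contain a copy of `K_q`. -/
def MakerCanBuild (m b N q : ℕ) : Prop :=
  ∃ σ : Pos N → Finset (Sym2 (Fin N)), LegalStrategy m σ ∧
    ∀ R : ℕ → Finset (Sym2 (Fin N)), LegalReplies b σ R →
      ∃ i, free (play σ R i) = ∅ ∧ ContainsClique q (play σ R i).maker

/-- `a` is the clique achievement number `A(K_N; clique; m:b)`: the largest `q` for which Maker has
a strategy that builds `K_q` against every Breaker strategy. -/
def IsAchievementNumber (m b N a : ℕ) : Prop := IsGreatest {q : ℕ | MakerCanBuild m b N q} a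

/-- `c = (m+b)/m` -/
noncomputable def c (m b : ℕ) : ℝ := ((m : ℝ) + b) / m

/-- `c₀ = m/(m-b)` -/
noncomputable def c₀ (m b : ℕ) : ℝ := (m : ℝ) / ((m : ℝ) - b)

/-- The conjectured value
`Q(N) = 2 log_c (e N / (2 log_c N)) - 1 + 2 log c / log c₀`. -/
noncomputable def Q (m b N : ℕ) : ℝ :=
  2 * Real.logb (c m b) (Real.exp 1 * N / (2 * Real.logb (c m b) N)) - 1
    + 2 * Real.log (c m b) / Real.log (c₀ m b)

/-- against every strategy there is a legal play of Breaker -/
lemma exists_replies {N : ℕ} (b : ℕ) (σ : Pos N → Finset (Sym2 (Fin N))) :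
    ∃ R, LegalReplies b σ R := by
  have hex : ∀ p : Pos N, ∃ T, T ⊆ free p \ σ p ∧ T.card = min b (free p \ σ p).card :=
    fun p => exists_subset_card_eq (min_le_right _ _)
  choose ρ hρ using hex
  let P : ℕ → Pos N := fun i => Nat.rec ⟨∅, ∅⟩ (fun _ p => ⟨p.maker ∪ σ p, p.breaker ∪ ρ p⟩) i
  have h : ∀ i, play σ (fun i => ρ (P i)) i = P i := by
    intro i
    induction i with
    | zero => rfl
    | succ i ih => rw [play, ih]
  refine ⟨fun i => ρ (P i), fun i => ?_⟩
  rw [h i]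
  exact hρ (P i)

lemma build_le {m b N q : ℕ} (h : MakerCanBuild m b N q) : q ≤ N := by
  obtain ⟨σ, _, hσ⟩ := h
  obtain ⟨R, hR⟩ := exists_replies b σ
  obtain ⟨i, _, S, hS, _⟩ := hσ R hR
  rw [← hS]
  exact (card_le_univ S).trans (by simp)

/-- the achievement number exists as soon as Maker can build something, and is at least as large -/
lemma exists_achievement {m b N q : ℕ} (h : MakerCanBuild m b N q) :
    ∃ a, IsAchievementNumber m b N a ∧ q ≤ a := by
  have hb : BddAbove {q : ℕ | MakerCanBuild m b N q} := ⟨N, fun q hq => build_le hq⟩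
  have hne : {q : ℕ | MakerCanBuild m b N q}.Nonempty := ⟨q, h⟩
  exact ⟨sSup {q : ℕ | MakerCanBuild m b N q}, ⟨Nat.sSup_mem hne hb, fun q hq => le_csSup hb hq⟩,
    le_csSup hb h⟩

open Pool.Agent.Helper340.MB Pool.Agent.H199R2.Blocks in
lemma build_of_forces {m b N q : ℕ} (hm : 1 ≤ m)
    (hf : Forces m b (edges N) (HasClique q) ∅ ∅) : MakerCanBuild m b N q := by
  obtain ⟨σ, hσ, hplay⟩ := exists_strategy hm hf
  refine ⟨fun p => σ p.maker p.breaker, fun p => hσ p.maker p.breaker, ?_⟩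
  intro R hR
  obtain ⟨i, hi, hg⟩ := hplay (fun i => (play (fun p => σ p.maker p.breaker) R i).maker)
    (fun i => (play (fun p => σ p.maker p.breaker) R i).breaker) R rfl rfl
    (fun _ => rfl) (fun _ => rfl) (fun i => hR i)
  exact ⟨i, hi, hg⟩

open Pool.Agent.Helper340.MB Pool.Agent.H199R2.Blocks in
/-- the size of the clique Maker builds with blocks -/
lemma lower (g m b : ℕ) (hb : 1 ≤ b) (hm : 1 ≤ m) (hg : g * g ≤ m) :
    ∃ C : ℝ, ∃ D N₁ : ℕ, 1 ≤ D ∧ ∀ N : ℕ, N₁ ≤ N / D → 1 ≤ N / D →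
      ∃ q : ℕ, g * (2 * Real.logb (1 + b) ((N / D : ℕ) : ℝ) -
        2 * Real.logb (1 + b) (Real.logb (1 + b) ((N / D : ℕ) : ℝ)) - C - 1) ≤ q ∧
        MakerCanBuild m b N q := by
  obtain ⟨C, N₁, h⟩ := clique_forces 1 b le_rfl hb
  have hcc : cc 1 b = 1 + (b : ℝ) := by unfold cc; norm_num
  rw [hcc] at h
  refine ⟨C, (2 * b + g) * (2 * (1 + 8 * b)), N₁, ?_, ?_⟩
  · have : 0 < (2 * b + g) * (2 * (1 + 8 * b)) := by positivity
    exact this
  · intro N hN1 hN2
    obtain ⟨h7, hf⟩ := h (N / ((2 * b + g) * (2 * (1 + 8 * b)))) hN1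
    set n := N / ((2 * b + g) * (2 * (1 + 8 * b))) with hn
    have hnd : n = N / (2 * b + g) / (2 * (1 + 8 * b)) := by rw [hn, Nat.div_div_eq_div_mul]
    have h1 : 2 * (1 + 8 * b) * n ≤ N / (2 * b + g) := by
      rw [hnd]; exact Nat.mul_div_le _ _
    have h2 : (2 * b + g) * (N / (2 * b + g)) ≤ N := Nat.mul_div_le _ _
    refine ⟨_, ?_, build_of_forces hm (block_forces hg hm h1 hf h2)⟩
    push_cast
    rw [mul_comm (g : ℝ)]
    refine mul_le_mul_of_nonneg_right ?_ (Nat.cast_nonneg _)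
    have := Nat.lt_floor_add_one (2 * Real.logb (1 + b) (n : ℝ) -
      2 * Real.logb (1 + b) (Real.logb (1 + b) n) - C)
    linarith

/-- Maker beats the conjectured value by a multiple of `log N`. -/
lemma beats (g m b : ℕ) (hb : 1 ≤ b) (hbm : b < m) (hg : g * g ≤ m)
    (hc : 1 + (b : ℝ) < c m b ^ g) :
    ∃ δ : ℝ, 0 < δ ∧ ∃ N₀ : ℕ, ∀ N : ℕ, N₀ ≤ N →
      ∃ a : ℕ, IsAchievementNumber m b N a ∧ Q m b N + δ * Real.log N ≤ a := by
  obtain ⟨C, D, N₁, hD, hlow⟩ := lower g m b hb (by omega) hg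
  have hb0 : (0 : ℝ) < b := by exact_mod_cast hb
  have hm0 : (0 : ℝ) < m := by exact_mod_cast (by omega : 0 < m)
  have hbm' : (b : ℝ) < m := by exact_mod_cast hbm
  have hc1 : 1 < c m b := by
    unfold c
    rw [one_lt_div hm0]
    linarith
  set lb := Real.log (1 + (b : ℝ)) with hlb
  set lc := Real.log (c m b) with hlc
  have hlb0 : 0 < lb := Real.log_pos (by linarith)
  have hlc0 : 0 < lc := Real.log_pos hc1
  have hglc : lb < g * lc := by
    have h1 : Real.log (1 + (b : ℝ)) < Real.log (c m b ^ g) :=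
      Real.log_lt_log (by linarith) hc
    rwa [Real.log_pow] at h1
  set a1 := 2 * g / lb with ha1
  set a2 := 2 / lc with ha2
  have ha2' : 0 < a2 := by positivity
  have ha12 : a2 < a1 := by
    rw [ha1, ha2, div_lt_div_iff₀ hlc0 hlb0]
    linarith
  set δ := (a1 - a2) / 4 with hδ
  have hδ0 : 0 < δ := by rw [hδ]; linarith
  set K1 := 2 * lc / Real.log (c₀ m b) with hK1
  have hDR : (1 : ℝ) ≤ D := by exact_mod_cast hD
  -- constants
  set T : ℝ := a2 + K1 + a1 * Real.log (2 * D) - a1 * Real.log lb + g * (C + 1) with hT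
  have hlog : Filter.Tendsto (fun N : ℕ => Real.log (N : ℝ)) Filter.atTop Filter.atTop :=
    Real.tendsto_log_atTop.comp tendsto_natCast_atTop_atTop
  have hlittle := Real.isLittleO_log_id_atTop.def (show 0 < δ / (a1 + 1) by positivity)
  have e1 := hlog.eventually hlittle
  have e2 := hlog.eventually_ge_atTop (max (max 1 lc) (T / δ))
  obtain ⟨N₀, hN₀⟩ := Filter.eventually_atTop.mp ((e1.and e2).and
    (Filter.eventually_ge_atTop (D * (N₁ + 2 + ⌈Real.exp lb⌉₊))))
  refine ⟨δ, hδ0, N₀, fun N hN => ?_⟩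
  obtain ⟨⟨h1, h2⟩, h3⟩ := hN₀ N hN
  have hdiv : N₁ + 2 + ⌈Real.exp lb⌉₊ ≤ N / D := by
    rw [Nat.le_div_iff_mul_le (by omega), mul_comm]
    exact h3
  set n := N / D with hn
  obtain ⟨q, hq, hbuild⟩ := hlow N (by omega) (by omega)
  obtain ⟨a, ha, hqa⟩ := exists_achievement hbuild
  refine ⟨a, ha, ?_⟩
  refine le_trans ?_ (show (q : ℝ) ≤ a by exact_mod_cast hqa)
  refine le_trans ?_ hq
  set L := Real.log (N : ℝ) with hL
  have hL1 : 1 ≤ L := (le_max_left _ _).trans ((le_max_left _ _).trans h2)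
  have hLc : lc ≤ L := (le_max_right _ _).trans ((le_max_left _ _).trans h2)
  have hLT : T ≤ δ * L := by
    have := (le_max_right _ _).trans h2
    rw [div_le_iff₀ hδ0] at this
    linarith
  have hn2 : (2 : ℝ) ≤ n := by exact_mod_cast (by omega : 2 ≤ n)
  have hnN : n ≤ N := Nat.div_le_self _ _
  have hnN' : (n : ℝ) ≤ N := by exact_mod_cast hnN
  have hN0 : (0 : ℝ) < N := by linarith
  have hne : Real.exp lb ≤ n := (Nat.le_ceil _).trans (by exact_mod_cast (by omega))
  have hlogn : lb ≤ Real.log n := by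
    rw [Real.le_log_iff_exp_le (by linarith)]
    exact hne
  -- `log n ≥ L - log (2 D)`
  have hn_lower : L - Real.log (2 * D) ≤ Real.log n := by
    have h4 : (N : ℝ) ≤ 2 * D * n := by
      have h5 : N < D * (n + 1) := by
        rw [hn]
        exact Nat.lt_mul_div_succ N (by omega)
      have h6 : (N : ℝ) < D * (n + 1) := by exact_mod_cast h5
      nlinarith
    have h7 : L ≤ Real.log (2 * D * n) := Real.log_le_log hN0 h4
    rw [Real.log_mul (by positivity) (by linarith)] at h7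
    linarith
  have hn_upper : Real.log n ≤ L := Real.log_le_log (by linarith) hnN'
  -- the double logarithm
  have hLL : Real.log (Real.log n / lb) ≤ δ / (a1 + 1) * L - Real.log lb := by
    rw [Real.log_div (by linarith) hlb0.ne']
    have h4 : Real.log (Real.log n) ≤ Real.log L := Real.log_le_log (by linarith) hn_upper
    have h5 : Real.log L ≤ δ / (a1 + 1) * L := by
      simp only [id, Real.norm_eq_abs] at h1
      have h6 := le_abs_self (Real.log L)
      rw [abs_of_nonneg (show 0 ≤ L by linarith)] at h1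
      linarith
    linarith
  have ha1' : 0 < a1 := ha2'.trans ha12
  -- upper bound for `Q`
  have hQ : Q m b N ≤ a2 * L + a2 + K1 := by
    unfold Q
    rw [← hlc, ← hK1]
    have h4 : 1 ≤ Real.logb (c m b) N := by
      rw [Real.logb, ← hlc, ← hL, le_div_iff₀ hlc0]
      linarith
    have h5 : Real.exp 1 * N / (2 * Real.logb (c m b) N) ≤ Real.exp 1 * N := by
      refine div_le_self (by positivity) (by linarith)
    have h6 : Real.logb (c m b) (Real.exp 1 * N / (2 * Real.logb (c m b) N)) ≤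
        Real.logb (c m b) (Real.exp 1 * N) :=
      Real.logb_le_logb_of_le hc1 (by positivity) h5
    have h7 : Real.logb (c m b) (Real.exp 1 * N) = (1 + L) / lc := by
      rw [Real.logb, Real.log_mul (Real.exp_pos 1).ne' hN0.ne', Real.log_exp]
    have h8 : 2 * ((1 + L) / lc) = a2 * L + a2 := by rw [ha2]; ring
    linarith
  have e3 : g * (2 * Real.logb (1 + b) (n : ℝ) -
      2 * Real.logb (1 + b) (Real.logb (1 + b) n) - C - 1) =
      a1 * Real.log n - a1 * Real.log (Real.log n / lb) - g * (C + 1) := by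
    simp only [Real.logb]
    rw [← hlb, ha1]
    ring
  rw [e3]
  have h10 : a1 * (δ / (a1 + 1) * L) ≤ δ * L := by
    have h11 : a1 * (δ / (a1 + 1)) ≤ δ := by
      have h18 : a1 * δ ≤ δ * (a1 + 1) := by
        have : δ * (a1 + 1) = a1 * δ + δ := by ring
        rw [this]
        exact le_add_of_nonneg_right hδ0.le
      rw [← mul_div_assoc, div_le_iff₀ (by positivity)]
      exact h18
    have h12 := mul_le_mul_of_nonneg_right h11 (show 0 ≤ L from zero_le_one.trans hL1)
    rwa [mul_assoc] at h12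
  have h13 := mul_le_mul_of_nonneg_left hn_lower ha1'.le
  have h14 := mul_le_mul_of_nonneg_left hLL ha1'.le
  have h15 : a1 * L = a2 * L + 4 * (δ * L) := by rw [hδ]; ring
  have h16 : a1 * (δ / (a1 + 1) * L - Real.log lb) = a1 * (δ / (a1 + 1) * L) - a1 * Real.log lb := by
    ring
  have h17 : a1 * (L - Real.log (2 * D)) = a1 * L - a1 * Real.log (2 * D) := by ring
  have hL0 : 0 ≤ δ * L := by positivity
  linarith

lemma crit64 : 1 + ((63 : ℕ) : ℝ) < c 64 63 ^ 8 := by
  unfold c
  norm_num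

/-- for `b ≥ β m` the criterion holds for all large `m` -/
lemma crit_large (β : ℝ) (hβ : 0 < β) : ∃ m₀ : ℕ, ∀ m b : ℕ, m₀ ≤ m → b < m → β * m ≤ b →
    1 + (b : ℝ) < c m b ^ (Nat.sqrt m) := by
  have h1 := tendsto_pow_const_div_const_pow_of_one_lt 2 (show (1 : ℝ) < 1 + β by linarith)
  have h2 := (h1.eventually_lt_const (show (0 : ℝ) < 1 / 4 by norm_num))
  obtain ⟨g₀, hg₀⟩ := Filter.eventually_atTop.mp h2
  refine ⟨(g₀ + 1) * (g₀ + 1), fun m b hm hbm hβb => ?_⟩
  set g := Nat.sqrt m with hg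
  have hg1 : g₀ + 1 ≤ g := Nat.le_sqrt.mpr hm
  have hm1 : m < (g + 1) * (g + 1) := Nat.lt_succ_sqrt m
  have hm0 : 0 < m := by
    have : 0 < (g₀ + 1) * (g₀ + 1) := by positivity
    omega
  have hmR : (0 : ℝ) < m := by exact_mod_cast hm0
  have hc : 1 + β ≤ c m b := by
    unfold c
    rw [le_div_iff₀ hmR]
    linarith
  have h3 := hg₀ g (by omega)
  have hgR : (1 : ℝ) ≤ g := by exact_mod_cast (by omega : 1 ≤ g)
  have hpos : 0 < (1 + β) ^ g := by positivity
  rw [div_lt_iff₀ hpos] at h3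
  have h4 : 1 + (b : ℝ) ≤ 4 * (g : ℝ) ^ 2 := by
    have h5 : b + 1 ≤ m := hbm
    have h6 : (b : ℝ) + 1 ≤ m := by exact_mod_cast h5
    have h7 : (m : ℝ) < (g + 1) * (g + 1) := by exact_mod_cast hm1
    nlinarith
  calc 1 + (b : ℝ) ≤ 4 * (g : ℝ) ^ 2 := h4
    _ < (1 + β) ^ g := by linarith
    _ ≤ c m b ^ g := pow_le_pow_left₀ (by linarith) hc _

/-- **The conjectured formula for `m > b` is false.**
(1) If `m > b ≥ 1`, `g² ≤ m` and `1 + b < c ^ g`, then for some `δ > 0` and all large `N` the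
achievement number is at least `Q(N) + δ log N`.
(2) This applies to `m = 64`, `b = 63`, and, for every `β > 0`, to all sufficiently large `m` and all
`b` with `β m ≤ b < m`.
(3) So the statement of the question is false. -/
theorem result :
    (∀ g m b : ℕ, 1 ≤ b → b < m → g * g ≤ m → 1 + (b : ℝ) < c m b ^ g →
      ∃ δ : ℝ, 0 < δ ∧ ∃ N₀ : ℕ, ∀ N : ℕ, N₀ ≤ N →
        ∃ a : ℕ, IsAchievementNumber m b N a ∧ Q m b N + δ * Real.log N ≤ a) ∧
    (∃ δ : ℝ, 0 < δ ∧ ∃ N₀ : ℕ, ∀ N : ℕ, N₀ ≤ N →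
        ∃ a : ℕ, IsAchievementNumber 64 63 N a ∧ Q 64 63 N + δ * Real.log N ≤ a) ∧
    (∀ β : ℝ, 0 < β → ∃ m₀ : ℕ, ∀ m b : ℕ, m₀ ≤ m → 1 ≤ b → b < m → β * m ≤ b →
      ∃ δ : ℝ, 0 < δ ∧ ∃ N₀ : ℕ, ∀ N : ℕ, N₀ ≤ N →
        ∃ a : ℕ, IsAchievementNumber m b N a ∧ Q m b N + δ * Real.log N ≤ a) ∧
    ¬ (∀ m b : ℕ, 1 ≤ b → b < m → ∃ ε : ℕ → ℝ, Filter.Tendsto ε Filter.atTop (nhds 0) ∧
      ∀ᶠ N : ℕ in Filter.atTop, ∀ a : ℕ, IsAchievementNumber m b N a →
        (a : ℤ) = ⌊Q m b N + ε N⌋) := by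
  have h64 := beats 8 64 63 (by norm_num) (by norm_num) (by norm_num) crit64
  refine ⟨beats, h64, ?_, ?_⟩
  · intro β hβ
    obtain ⟨m₀, hm₀⟩ := crit_large β hβ
    exact ⟨m₀, fun m b hm hb hbm hβb => beats (Nat.sqrt m) m b hb hbm (Nat.sqrt_le m)
      (hm₀ m b hm hbm hβb)⟩
  · intro hall
    obtain ⟨ε, hε, hev⟩ := hall 64 63 (by norm_num) (by norm_num)
    obtain ⟨δ, hδ, N₀, hN₀⟩ := h64
    have h1 := hε.eventually_lt_const (show (0 : ℝ) < δ by exact hδ)
    have hlog : Filter.Tendsto (fun N : ℕ => Real.log (N : ℝ)) Filter.atTop Filter.atTop :=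
      Real.tendsto_log_atTop.comp tendsto_natCast_atTop_atTop
    have h2 := hlog.eventually_ge_atTop 1
    obtain ⟨N, ⟨⟨h3, h4⟩, h5⟩, h6⟩ :=
      (((h1.and h2).and hev).and (Filter.eventually_ge_atTop N₀)).exists
    obtain ⟨a, ha, haQ⟩ := hN₀ N h6
    have h7 := h5 a ha
    have h8 : (a : ℝ) ≤ Q 64 63 N + ε N := by
      have h9 : ((a : ℤ) : ℝ) ≤ Q 64 63 N + ε N := by
        rw [h7]; exact Int.floor_le _
      exact_mod_cast h9
    nlinarith

end Pool.Agent.Results.MP_ba8873_co.Disproof
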